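import Mathlib

set_option autoImplicit false

namespace Pool.Agent.Results.MP_09fd01_co.Main

/-- `S` is a dominating set of `G`. -/
def IsDominating {V : Type} (G : SimpleGraph V) (S : Set V) : Prop :=
  ∀ v, v ∈ S ∨ ∃ u ∈ S, G.Adj u v

/-- `S` is a γ-set: a dominating set of least size. -/
def IsGammaSet {V : Type} (G : SimpleGraph V) (S : Set V) : Prop :=
  IsDominating G S ∧ ∀ T, IsDominating G T → S.ncard ≤ T.ncard

/-- The γ-graph of the finite graph `G`: its vertices are the γ-sets; distinct γ-sets `S`, `T` are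
adjacent if `T = (S \ {v₁}) ∪ {v₂}` with `v₁ ∈ S`, `v₂ ∈ T`, `v₁ v₂` an edge of `G`. -/
def gammaGraph {V : Type} [Finite V] (G : SimpleGraph V) :
    SimpleGraph {S : Set V // IsGammaSet G S} where
  Adj S T := S ≠ T ∧ ∃ v₁ ∈ S.1, ∃ v₂ ∈ T.1, G.Adj v₁ v₂ ∧ T.1 = (S.1 \ {v₁}) ∪ {v₂}
  symm := ⟨by
    rintro S T ⟨hne, v₁, h1, v₂, h2, hadj, hT⟩
    refine ⟨hne.symm, v₂, h2, v₁, h1, hadj.symm, ?_⟩
    have hcard : S.1.ncard = T.1.ncard := le_antisymm (S.2.2 _ T.2.1) (T.2.2 _ S.2.1)
    have hne12 : v₁ ≠ v₂ := hadj.ne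
    have hnot : v₂ ∉ S.1 := by
      intro hmem
      have h3 : T.1 = S.1 \ {v₁} := by
        rw [hT]
        ext x
        simp only [Set.mem_union, Set.mem_diff, Set.mem_singleton_iff]
        constructor
        · rintro (h | h)
          · exact h
          · rw [h]; exact ⟨hmem, hne12.symm⟩
        · intro h; exact Or.inl h
      have h4 : (S.1 \ {v₁}).ncard < S.1.ncard := Set.ncard_diff_singleton_lt_of_mem h1
      rw [h3] at hcard
      omega
    rw [hT]
    ext x
    simp only [Set.mem_union, Set.mem_diff, Set.mem_singleton_iff]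
    constructor
    · intro hx
      by_cases hx1 : x = v₁
      · exact Or.inr hx1
      · exact Or.inl ⟨Or.inl ⟨hx, hx1⟩, fun h => hnot (h ▸ hx)⟩
    · rintro (⟨h, h'⟩ | h)
      · rcases h with h | h
        · exact h.1
        · exact absurd h h'
      · rw [h]; exact h1⟩
  loopless := ⟨fun S h => h.1 rfl⟩

/-! ### Functoriality -/

section Iso

variable {V W : Type} [Finite V] [Finite W] {G : SimpleGraph V} {H : SimpleGraph W}

theorem dom_image (e : G ≃g H) {S : Set V} (h : IsDominating G S) : IsDominating H (e '' S) := by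
  intro w
  obtain ⟨v, rfl⟩ := e.surjective w
  rcases h v with hv | ⟨u, hu, hadj⟩
  · exact Or.inl ⟨v, hv, rfl⟩
  · exact Or.inr ⟨e u, ⟨u, hu, rfl⟩, e.map_adj_iff.mpr hadj⟩

theorem ncard_image (e : G ≃g H) (S : Set V) : (e '' S).ncard = S.ncard :=
  Set.ncard_image_of_injective S e.injective

theorem gamma_image (e : G ≃g H) {S : Set V} (h : IsGammaSet G S) : IsGammaSet H (e '' S) := by
  refine ⟨dom_image e h.1, fun T hT => ?_⟩
  rw [ncard_image]
  have := h.2 _ (dom_image e.symm hT)
  rwa [ncard_image] at this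

theorem symm_image (e : G ≃g H) (S : Set V) : e.symm '' (e '' S) = S := by
  rw [← Set.image_comp]
  have : (e.symm : W → V) ∘ e = id := by ext x; simp
  rw [this, Set.image_id]

theorem adj_image (e : G ≃g H) (S T : {S : Set V // IsGammaSet G S})
    (h : (gammaGraph G).Adj S T) :
    (gammaGraph H).Adj ⟨e '' S.1, gamma_image e S.2⟩ ⟨e '' T.1, gamma_image e T.2⟩ := by
  obtain ⟨hne, v₁, h1, v₂, h2, hadj, hT⟩ := h
  refine ⟨?_, e v₁, ⟨v₁, h1, rfl⟩, e v₂, ⟨v₂, h2, rfl⟩, e.map_adj_iff.mpr hadj, ?_⟩
  · intro heq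
    apply hne
    have h3 : e '' S.1 = e '' T.1 := congrArg Subtype.val heq
    exact Subtype.ext (e.injective.image_injective h3)
  · show e '' T.1 = (e '' S.1 \ {e v₁}) ∪ {e v₂}
    rw [hT, Set.image_union, Set.image_diff e.injective, Set.image_singleton, Set.image_singleton]

def mapIso (e : G ≃g H) : gammaGraph G ≃g gammaGraph H where
  toFun S := ⟨e '' S.1, gamma_image e S.2⟩
  invFun T := ⟨e.symm '' T.1, gamma_image e.symm T.2⟩
  left_inv S := Subtype.ext (symm_image e S.1)
  right_inv T := Subtype.ext (symm_image e.symm T.1)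
  map_rel_iff' := by
    intro S T
    constructor
    · intro h
      have h2 := adj_image e.symm _ _ h
      have e1 : (⟨e.symm '' (e '' S.1), gamma_image e.symm (gamma_image e S.2)⟩ :
          {S : Set V // IsGammaSet G S}) = S := Subtype.ext (symm_image e S.1)
      have e2 : (⟨e.symm '' (e '' T.1), gamma_image e.symm (gamma_image e T.2)⟩ :
          {S : Set V // IsGammaSet G S}) = T := Subtype.ext (symm_image e T.1)
      have h3 : (gammaGraph G).Adj ⟨e.symm '' (e '' S.1), gamma_image e.symm (gamma_image e S.2)⟩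
          ⟨e.symm '' (e '' T.1), gamma_image e.symm (gamma_image e T.2)⟩ := h2
      rw [e1, e2] at h3
      exact h3
    · intro h
      exact adj_image e S T h

end Iso

/-! ### Bitmask computations on 11 vertices -/

/-- the set of vertices coded by the bits of `m` -/
def setOf (m : ℕ) : Set (Fin 11) := {u | m.testBit u.val = true}

open Classical in
noncomputable def code (S : Set (Fin 11)) : ℕ := Nat.ofBits (fun u : Fin 11 => decide (u ∈ S))

theorem code_lt (S : Set (Fin 11)) : code S < 2048 := by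
  classical
  have := Nat.ofBits_lt_two_pow (fun u : Fin 11 => decide (u ∈ S))
  norm_num at this
  exact this

theorem testBit_code (S : Set (Fin 11)) (u : Fin 11) : (code S).testBit u.val = true ↔ u ∈ S := by
  classical
  unfold code
  rw [Nat.testBit_ofBits_lt _ _ u.isLt]
  simp

theorem setOf_code (S : Set (Fin 11)) : setOf (code S) = S := by
  ext u
  exact testBit_code S u

def pop (m : ℕ) : ℕ := (List.range 11).countP (fun u => m.testBit u)

theorem ncard_setOf (m : ℕ) : (setOf m).ncard = pop m := by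
  classical
  have h1 : setOf m = ((Finset.univ.filter (fun u : Fin 11 => m.testBit u.val = true) :
      Finset (Fin 11)) : Set (Fin 11)) := by
    ext u; simp [setOf]
  rw [h1, Set.ncard_coe_finset, Finset.card_filter]
  unfold pop
  simp only [Fin.sum_univ_succ, Fin.sum_univ_zero]
  rw [show List.range 11 = [0, 1, 2, 3, 4, 5, 6, 7, 8, 9, 10] from rfl]
  simp only [List.countP_cons, List.countP_nil]
  simp only [Fin.val_zero, Fin.val_succ]
  norm_num
  ring

def nbrG : List (List ℕ) :=
  [[1, 2, 3, 8], [0, 2, 3, 7, 10], [0, 1, 3], [0, 1, 2], [5, 6], [4, 6, 8], [4, 5, 7, 9], [1, 6, 9, 10], [0, 5], [6, 7], [1, 7]]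
def nbrH : List (List ℕ) :=
  [[3, 4, 8], [2, 3], [1, 3, 6, 9, 10], [0, 1, 2, 4], [0, 3], [6, 7, 8], [2, 5, 7, 9, 10], [5, 6], [0, 5], [2, 6, 10], [2, 6, 9]]
def closedG : List ℕ := [271, 1167, 15, 15, 112, 368, 752, 1730, 289, 704, 1154]
def closedH : List ℕ := [281, 14, 1614, 31, 25, 480, 1764, 224, 289, 1604, 1604]
/-- γ-sets of `G`, indexed by the vertices of `H` -/
def maskG : List ℕ := [67, 145, 161, 193, 1089, 98, 162, 546, 322, 164, 168]
/-- γ-sets of `H`, indexed by the vertices of `G` -/
def maskH : List ℕ := [104, 44, 552, 1064, 67, 73, 69, 37, 328, 133, 52]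

@[reducible] def AdjL (nbr : List (List ℕ)) (a b : Fin 11) : Prop := b.val ∈ nbr.getD a.val []

def G11 : SimpleGraph (Fin 11) where
  Adj := AdjL nbrG
  symm := ⟨by decide +kernel⟩
  loopless := ⟨by decide +kernel⟩

def H11 : SimpleGraph (Fin 11) where
  Adj := AdjL nbrH
  symm := ⟨by decide +kernel⟩
  loopless := ⟨by decide +kernel⟩

instance : DecidableRel G11.Adj := fun a b => inferInstanceAs (Decidable (AdjL nbrG a b))
instance : DecidableRel H11.Adj := fun a b => inferInstanceAs (Decidable (AdjL nbrH a b))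

/-- exhaustive check of all vertex subsets -/
def chk (closed masks : List ℕ) : Bool :=
  (List.range 2048).all fun m =>
    !(closed.all fun c => !(Nat.beq (m &&& c) 0)) ||
      (Nat.ble 3 (pop m) && (!(Nat.beq (pop m) 3) || masks.any (fun x => Nat.beq x m)))

theorem chkG : chk closedG maskG = true := by decide +kernel
theorem chkH : chk closedH maskH = true := by decide +kernel

theorem use_chk (K : SimpleGraph (Fin 11)) (closed masks : List ℕ) (hchk : chk closed masks = true)
    (hclosed : ∀ c ∈ closed, ∃ v : Fin 11, c.testBit v.val = true ∧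
      ∀ u : Fin 11, K.Adj u v → c.testBit u.val = true)
    (S : Set (Fin 11)) (hS : IsDominating K S) :
    3 ≤ S.ncard ∧ (S.ncard = 3 → code S ∈ masks) := by
  unfold chk at hchk
  rw [List.all_eq_true] at hchk
  have h1 := hchk (code S) (List.mem_range.mpr (code_lt S))
  have h2 : (closed.all fun c => !(Nat.beq (code S &&& c) 0)) = true := by
    rw [List.all_eq_true]
    intro c hc
    obtain ⟨v, hv, hu⟩ := hclosed c hc
    have key : ∃ u : Fin 11, u ∈ S ∧ c.testBit u.val = true := by
      rcases hS v with h | ⟨u, hus, hadj⟩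
      · exact ⟨v, h, hv⟩
      · exact ⟨u, hus, hu u hadj⟩
    obtain ⟨u, hus, hcu⟩ := key
    cases hb : Nat.beq (code S &&& c) 0
    · rfl
    · exfalso
      have h3 := Nat.eq_of_beq_eq_true hb
      have h4 : (code S &&& c).testBit u.val = true := by
        rw [Nat.testBit_and, (testBit_code S u).mpr hus, hcu]; rfl
      rw [h3] at h4
      simp at h4
  rw [h2] at h1
  simp only [Bool.not_true, Bool.false_or, Bool.and_eq_true] at h1
  have hn : S.ncard = pop (code S) := by rw [← ncard_setOf, setOf_code]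
  refine ⟨by rw [hn]; exact Nat.le_of_ble_eq_true h1.1, ?_⟩
  intro h3
  rw [hn] at h3
  have h4 := h1.2
  rw [h3] at h4
  have h5 : (Nat.beq 3 3) = true := rfl
  rw [h5] at h4
  simp only [Bool.not_true, Bool.false_or] at h4
  rw [List.any_eq_true] at h4
  obtain ⟨x, hx, hxe⟩ := h4
  rw [← Nat.eq_of_beq_eq_true hxe]
  exact hx

/-- Build the isomorphism between a graph `H` on `Fin 11` and the γ-graph of `K`. -/
theorem build (K H : SimpleGraph (Fin 11)) (closed masks : List ℕ) (hchk : chk closed masks = true)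
    (hclosed : ∀ c ∈ closed, ∃ v : Fin 11, c.testBit v.val = true ∧
      ∀ u : Fin 11, K.Adj u v → c.testBit u.val = true)
    (hlen : masks.length = 11) (hnodup : masks.Nodup)
    (hdom : ∀ i : Fin 11, ∀ v : Fin 11, (masks.getD i.val 0).testBit v.val = true ∨
      ∃ u : Fin 11, (masks.getD i.val 0).testBit u.val = true ∧ K.Adj u v)
    (hpop : ∀ i : Fin 11, pop (masks.getD i.val 0) = 3)
    (hlt : ∀ i : Fin 11, masks.getD i.val 0 < 2048)
    (hadj : ∀ i j : Fin 11, H.Adj i j ↔ (i ≠ j ∧ ∃ v₁ : Fin 11,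
      (masks.getD i.val 0).testBit v₁.val = true ∧ ∃ v₂ : Fin 11,
      (masks.getD j.val 0).testBit v₂.val = true ∧ K.Adj v₁ v₂ ∧
      ∀ u : Fin 11, ((masks.getD j.val 0).testBit u.val = true ↔
        (((masks.getD i.val 0).testBit u.val = true ∧ u ≠ v₁) ∨ u = v₂)))) :
    Nonempty (H ≃g gammaGraph K) := by
  have hgam : ∀ i : Fin 11, IsGammaSet K (setOf (masks.getD i.val 0)) := by
    intro i
    refine ⟨fun v => ?_, fun T hT => ?_⟩
    · rcases hdom i v with h | ⟨u, hu, ha⟩
      · exact Or.inl h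
      · exact Or.inr ⟨u, hu, ha⟩
    · rw [ncard_setOf, hpop i]
      exact (use_chk K closed masks hchk hclosed T hT).1
  have hcode : ∀ i : Fin 11, code (setOf (masks.getD i.val 0)) = masks.getD i.val 0 := by
    intro i
    apply Nat.eq_of_testBit_eq
    intro k
    by_cases hk : k < 11
    · have := testBit_code (setOf (masks.getD i.val 0)) ⟨k, hk⟩
      rw [Bool.eq_iff_iff]
      exact this
    · rw [Nat.testBit_lt_two_pow, Nat.testBit_lt_two_pow]
      · exact lt_of_lt_of_le (hlt i) (by
          calc 2048 = 2 ^ 11 := by norm_num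
            _ ≤ 2 ^ k := Nat.pow_le_pow_right (by norm_num) (by omega))
      · exact lt_of_lt_of_le (code_lt _) (by
          calc 2048 = 2 ^ 11 := by norm_num
            _ ≤ 2 ^ k := Nat.pow_le_pow_right (by norm_num) (by omega))
  let g : Fin 11 → {S : Set (Fin 11) // IsGammaSet K S} :=
    fun i => ⟨setOf (masks.getD i.val 0), hgam i⟩
  have ginj : Function.Injective g := by
    intro i j hij
    have h1 : setOf (masks.getD i.val 0) = setOf (masks.getD j.val 0) := congrArg Subtype.val hij
    have h2 : masks.getD i.val 0 = masks.getD j.val 0 := by rw [← hcode i, ← hcode j, h1]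
    rw [List.getD_eq_getElem _ _ (by rw [hlen]; exact i.isLt),
      List.getD_eq_getElem _ _ (by rw [hlen]; exact j.isLt)] at h2
    exact Fin.ext ((List.Nodup.getElem_inj_iff hnodup).mp h2)
  have gsurj : Function.Surjective g := by
    rintro ⟨S, hS⟩
    have h3 : S.ncard = 3 := by
      apply le_antisymm
      · have := hS.2 _ (hgam 0).1
        rwa [ncard_setOf, hpop 0] at this
      · exact (use_chk K closed masks hchk hclosed S hS.1).1
    have h4 := (use_chk K closed masks hchk hclosed S hS.1).2 h3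
    obtain ⟨k, hk, hke⟩ := List.mem_iff_getElem.mp h4
    refine ⟨⟨k, by rw [← hlen]; exact hk⟩, ?_⟩
    apply Subtype.ext
    show setOf (masks.getD k 0) = S
    rw [List.getD_eq_getElem _ _ hk, hke, setOf_code]
  refine ⟨⟨Equiv.ofBijective g ⟨ginj, gsurj⟩, ?_⟩⟩
  intro i j
  rw [hadj i j]
  show (gammaGraph K).Adj (g i) (g j) ↔ _
  constructor
  · rintro ⟨hne, v₁, h1, v₂, h2, ha, hT⟩
    refine ⟨fun h => hne (by rw [h]), v₁, h1, v₂, h2, ha, ?_⟩
    intro u
    have h5 : u ∈ (g j).1 ↔ u ∈ ((g i).1 \ {v₁}) ∪ {v₂} := by rw [hT]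
    exact h5
  · rintro ⟨hne, v₁, h1, v₂, h2, ha, hT⟩
    refine ⟨fun h => hne (ginj h), v₁, h1, v₂, h2, ha, ?_⟩
    ext u
    exact hT u

theorem isoG : Nonempty (H11 ≃g gammaGraph G11) :=
  build G11 H11 closedG maskG chkG (by decide +kernel) rfl (by decide +kernel)
    (by decide +kernel) (by decide +kernel) (by decide +kernel) (by decide +kernel)

theorem isoH : Nonempty (G11 ≃g gammaGraph H11) :=
  build H11 G11 closedH maskH chkH (by decide +kernel) rfl (by decide +kernel)
    (by decide +kernel) (by decide +kernel) (by decide +kernel) (by decide +kernel)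

theorem deg_iso {H K : SimpleGraph (Fin 11)} [DecidableRel H.Adj] [DecidableRel K.Adj]
    (f : H ≃g K) (u : Fin 11) : K.degree (f u) = H.degree u := by
  rw [← SimpleGraph.card_neighborFinset_eq_degree, ← SimpleGraph.card_neighborFinset_eq_degree,
    ← Finset.card_image_of_injective (H.neighborFinset u) f.injective]
  congr 1
  ext w
  rw [SimpleGraph.mem_neighborFinset, Finset.mem_image]
  constructor
  · intro h
    refine ⟨f.symm w, ?_, by simp⟩
    rw [SimpleGraph.mem_neighborFinset, ← f.map_adj_iff]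
    simpa using h
  · rintro ⟨x, hx, rfl⟩
    rw [SimpleGraph.mem_neighborFinset] at hx
    exact f.map_adj_iff.mpr hx

theorem degH : ∀ u v, H11.degree u = 4 → H11.degree v = 4 → u = v := by decide +kernel
theorem degG : G11.degree 0 = 4 ∧ G11.degree 6 = 4 := by decide +kernel

theorem not_iso (f : H11 ≃g G11) : False := by
  have h1 := deg_iso f.symm 0
  have h2 := deg_iso f.symm 6
  rw [degG.1] at h1
  rw [degG.2] at h2
  have h3 := f.symm.injective (degH _ _ h1 h2)
  revert h3
  decide

/-- There is a finite graph whose γ-graph sequence is a cycle of length `2`: the second iterated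
γ-graph of `G` is isomorphic to `G`, but the γ-graph of `G` is not. -/
theorem result : ∃ G : SimpleGraph (Fin 11),
    Nonempty (gammaGraph (gammaGraph G) ≃g G) ∧ IsEmpty (gammaGraph G ≃g G) := by
  obtain ⟨e1⟩ := isoG
  obtain ⟨e2⟩ := isoH
  refine ⟨G11, ⟨(mapIso e1).symm.trans e2.symm⟩, ⟨fun f => not_iso (e1.trans f)⟩⟩

end Pool.Agent.Results.MP_09fd01_co.Main
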